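import Pool.Agent.Q38.OD.EK7

/-! Job EK-6P (OD-28) of project OD: an equation for the singular forms. -/

set_option autoImplicit false

namespace Pool.Agent.Q38.OD

open Pool.Agent.Q40.OD Pool.Agent.TH214.RM MvPolynomial

theorem map_form {R S : Type} [CommRing R] [CommRing S] (φ : R →+* S) (n d : ℕ) (c : Ix n d → R) :
    map φ (form n d c) = form n d fun α => φ (c α) := by
  unfold form
  rw [map_sum]
  simp only [map_monomial]

theorem hom_eval {R S ι : Type} [CommRing R] [CommRing S] (φ : R →+* S) (P : ι → R)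
    (H : MvPolynomial ι R) : φ (eval P H) = eval (fun j => φ (P j)) (map φ H) := by
  rw [eval_map, ← coe_eval₂Hom, ← RingHom.comp_apply]
  congr 1
  apply MvPolynomial.ringHom_ext'
  · ext r
    simp
  · intro i
    simp

theorem form_hom {R : Type} [CommRing R] (n d : ℕ) (c : Ix n d → R) :
    (form n d c).IsHomogeneous d := by
  unfold form
  refine IsHomogeneous.sum _ _ _ fun α _ => ?_
  exact isHomogeneous_monomial _ α.2

section

variable (n d : ℕ) (s : Fin (n + 2))

/-- the ring of the coefficients and the coordinates of a point -/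
abbrev Bs : Type := MvPolynomial (Ix n d ⊕ {j : Fin (n + 2) // j ≠ s}) ℚ

/-- the universal form -/
noncomputable def uf : MvPolynomial {j : Fin (n + 2) // j ≠ s} (Bs n d s) :=
  deh s (form n d fun α => X (Sum.inl α))

/-- the ideal of the singular points -/
noncomputable def Js : Ideal (Bs n d s) :=
  Ideal.span (insert (eval (fun j => X (Sum.inr j)) (uf n d s))
    (Set.range fun b => eval (fun j => X (Sum.inr j)) (pderiv b (uf n d s))))

variable {n d s}

theorem Js_kill {Λ : Type} [CommRing Λ] (φ : Bs n d s →+* Λ) (c : Ix n d → Λ)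
    (P : {j : Fin (n + 2) // j ≠ s} → Λ) (hc : ∀ α, φ (X (Sum.inl α)) = c α)
    (hP : ∀ j, φ (X (Sum.inr j)) = P j) :
    φ (eval (fun j => X (Sum.inr j)) (uf n d s)) = eval P (deh s (form n d c)) ∧
    ∀ b, φ (eval (fun j => X (Sum.inr j)) (pderiv b (uf n d s))) =
      eval P (pderiv b (deh s (form n d c))) := by
  have h1 : map φ (uf n d s) = deh s (form n d c) := by
    unfold uf
    rw [map_deh, map_form]
    simp only [hc]
  constructor
  · rw [hom_eval, h1]
    simp only [hP]
  · intro b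
    rw [hom_eval, ← pderiv_map, h1]
    simp only [hP]

theorem exists_disc (h5 : S_EK5P) (hd : 2 ≤ d) :
    ∃ Δ : MvPolynomial (Ix n d) ℚ, Δ ≠ 0 ∧ rename Sum.inl Δ ∈ Js n d s := by
  classical
  by_contra hcon
  push Not at hcon
  let M : Submonoid (Bs n d s) :=
    (nonZeroDivisors (MvPolynomial (Ix n d) ℚ)).map
      (rename Sum.inl : MvPolynomial (Ix n d) ℚ →ₐ[ℚ] Bs n d s)
  have hdis : Disjoint (Js n d s : Set (Bs n d s)) (M : Set (Bs n d s)) := by
    rw [Set.disjoint_left]
    rintro z hz ⟨Δ, hΔ, rfl⟩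
    exact hcon Δ (nonZeroDivisors.ne_zero hΔ) hz
  obtain ⟨P, hPp, hJP, hPM⟩ := Ideal.exists_le_prime_disjoint _ _ hdis
  obtain ⟨Λ, _, ψ, hψ⟩ := exists_fieldhom P hPp
  have hch : CharZero Λ := by
    have h1 : Function.Injective (ψ.comp (C : ℚ →+* _)) := RingHom.injective _
    exact charZero_of_injective_ringHom h1
  obtain ⟨h0, h1⟩ := Js_kill ψ (fun α => ψ (X (Sum.inl α))) (fun j => ψ (X (Sum.inr j)))
    (fun _ => rfl) (fun _ => rfl)
  refine h5 hd (fun α => ψ (X (Sum.inl α))) s (fun j => ψ (X (Sum.inr j))) ?_ ?_ ?_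
  · rw [← h0, hψ]
    exact hJP (Ideal.subset_span (Set.mem_insert _ _))
  · intro b
    rw [← h1, hψ]
    exact hJP (Ideal.subset_span (Set.mem_insert_of_mem _ ⟨b, rfl⟩))
  · rw [algebraicIndependent_iff]
    intro Δ hΔ
    by_contra hne
    have h2 : aeval (fun α => ψ (X (Sum.inl α))) Δ = ψ (rename Sum.inl Δ) := by
      have h3 : (aeval (fun α => ψ (X (Sum.inl α))) : MvPolynomial (Ix n d) ℚ →ₐ[ℚ] Λ).toRingHom =
          ψ.comp (rename Sum.inl : MvPolynomial (Ix n d) ℚ →ₐ[ℚ] Bs n d s).toRingHom := by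
        apply MvPolynomial.ringHom_ext'
        · exact RingHom.ext_rat _ _
        · intro j
          change aeval (fun α => ψ (X (Sum.inl α))) (X j) = ψ (rename Sum.inl (X j))
          rw [aeval_X, rename_X]
      exact congrArg (fun f => f Δ) h3
    rw [hΔ, eq_comm, hψ] at h2
    exact Set.disjoint_left.1 hPM h2 ⟨Δ, mem_nonZeroDivisors_of_ne_zero hne, rfl⟩

end

/-- **EK-6P** -/
theorem ek6p (h5 : S_EK5P) : S_EK6P := by
  classical
  intro n d hd
  choose Δ hΔ0 hΔ using fun s : Fin (n + 2) => exists_disc (n := n) (d := d) (s := s) h5 hd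
  have hprod : ∏ s, Δ s ≠ 0 := Finset.prod_ne_zero_iff.2 fun s _ => hΔ0 s
  obtain ⟨m, hm, y, hy⟩ := clear_poly (O := ℤ) (R := ℚ) (nonZeroDivisors ℤ) (∏ s, Δ s)
  have hm0 : (m : ℚ) ≠ 0 := by
    have := nonZeroDivisors.ne_zero hm
    exact_mod_cast this
  refine ⟨y, ?_, fun c hc => ?_⟩
  · rintro rfl
    rw [map_zero] at hy
    refine mul_ne_zero ?_ hprod hy.symm
    rw [Ne, C_eq_zero]
    exact hm0
  · obtain ⟨Λ, _, _, x, s, hxs, hpd, hG0⟩ := exists_point (by omega) (form n d c)
      (form_hom n d c) hc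
    let t : Fin (n + 2) → Λ := fun j => x j * (x s)⁻¹
    have hts : t s = 1 := mul_inv_cancel₀ hxs
    have haev : ∀ (H : MvPolynomial (Fin (n + 2)) ℤ) (e : ℕ), H.IsHomogeneous e →
        aeval x H = 0 → aeval (fun j : {j : Fin (n + 2) // j ≠ s} => t j) (deh s H) = 0 := by
      intro H e he h0
      rw [aeval_deh s t hts, aeval_scale x _ e H he, h0, zero_mul]
    let P : {j : Fin (n + 2) // j ≠ s} → Λ := fun j => t j
    let φ : Bs n d s →+* Λ :=
      (aeval (Sum.elim (fun α => ((c α : ℤ) : Λ)) P) : Bs n d s →ₐ[ℚ] Λ).toRingHom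
    obtain ⟨h0, h1⟩ := Js_kill φ (fun α => ((c α : ℤ) : Λ)) P
      (fun α => aeval_X _ _) (fun j => aeval_X _ _)
    have hmf : form n d (fun α => ((c α : ℤ) : Λ)) = map (Int.castRingHom Λ) (form n d c) := by
      rw [map_form]
      rfl
    have hev : ∀ H : MvPolynomial {j : Fin (n + 2) // j ≠ s} ℤ,
        eval P (map (Int.castRingHom Λ) H) = aeval P H := by
      intro H
      rw [eval_map, aeval_def]
      rfl
    have hker : Js n d s ≤ RingHom.ker φ := by
      unfold Js
      rw [Ideal.span_le]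
      rintro z (rfl | ⟨b, rfl⟩)
      · change φ _ = 0
        rw [h0, hmf, ← map_deh, hev]
        exact haev _ d (form_hom n d c) hG0
      · change φ _ = 0
        rw [h1, hmf, ← map_deh, pderiv_map, hev, pderiv_deh]
        exact haev _ (d - 1) (form_hom n d c).pderiv (hpd _)
    have h2 : φ (rename Sum.inl (Δ s)) = 0 := hker (hΔ s)
    have h3 : φ (rename Sum.inl (Δ s)) = ((eval (fun α => ((c α : ℤ) : ℚ)) (Δ s) : ℚ) : Λ) := by
      have h4 : φ.comp (rename Sum.inl : MvPolynomial (Ix n d) ℚ →ₐ[ℚ] Bs n d s).toRingHom =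
          (algebraMap ℚ Λ).comp (eval fun α => ((c α : ℤ) : ℚ)) := by
        apply MvPolynomial.ringHom_ext'
        · exact RingHom.ext_rat _ _
        · intro α
          change aeval _ (rename Sum.inl (X α)) = algebraMap ℚ Λ (eval _ (X α))
          rw [rename_X, aeval_X, eval_X]
          simp
      exact congrArg (fun f => f (Δ s)) h4
    rw [h3] at h2
    have h5 : eval (fun α => ((c α : ℤ) : ℚ)) (Δ s) = 0 := by exact_mod_cast h2
    have h6 : ((eval c y : ℤ) : ℚ) = eval (fun α => ((c α : ℤ) : ℚ)) (map (algebraMap ℤ ℚ) y) :=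
      hom_eval (Int.castRingHom ℚ) c y
    rw [hy, map_mul, map_prod, Finset.prod_eq_zero (Finset.mem_univ s) h5, mul_zero] at h6
    exact_mod_cast h6

end Pool.Agent.Q38.OD
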