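import Pool.Agent.Q40.OD.Stm2

/-! Job EK-7 (OD-29) of project OD: a hypersurface with a smooth fibre is smooth. -/

set_option autoImplicit false

namespace Pool.Agent.Q38.OD

open Pool.Agent.Q40.OD Pool.Agent.TH214.RM MvPolynomial

/-- a valuation ring of `Λ` in which `p` is not a unit -/
theorem exists_val {Λ : Type} [Field Λ] [CharZero Λ] (p : ℕ) (hp : p.Prime) :
    ∃ V : ValuationSubring Λ, (p : Λ) ∈ V.nonunits := by
  let A : Subring Λ := (Int.castRingHom Λ).range
  have hpA : (p : Λ) ∈ A := ⟨(p : ℤ), by simp⟩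
  let a : A := ⟨(p : Λ), hpA⟩
  have hI : Ideal.span {a} ≠ ⊤ := by
    intro h
    rw [Ideal.eq_top_iff_one, Ideal.mem_span_singleton'] at h
    obtain ⟨⟨b, ⟨z, hz⟩⟩, hb⟩ := h
    have h1 : b * (p : Λ) = 1 := congrArg Subtype.val hb
    rw [← hz] at h1
    have h2 : (z * (p : ℤ) : ℤ) = 1 := by
      have h3 : ((z * (p : ℤ) : ℤ) : Λ) = 1 := by
        push_cast
        exact h1
      exact_mod_cast h3
    have h3 : IsUnit (p : ℤ) := IsUnit.of_mul_eq_one z (by rw [mul_comm]; exact h2)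
    exact (Nat.prime_iff_prime_int.1 hp).not_isUnit h3
  obtain ⟨B, -, hB⟩ := Ideal.image_subset_nonunits_valuationSubring (Ideal.span {a}) hI
  exact ⟨B, hB ⟨a, Ideal.mem_span_singleton_self a, rfl⟩⟩

/-- the residue field of a prime ideal -/
theorem exists_fieldhom {B : Type} [CommRing B] (P : Ideal B) (hP : P.IsPrime) :
    ∃ (Λ : Type) (_ : Field Λ) (ψ : B →+* Λ), ∀ z, ψ z = 0 ↔ z ∈ P := by
  refine ⟨FractionRing (B ⧸ P), inferInstance, (algebraMap _ _).comp (Ideal.Quotient.mk P),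
    fun z => ?_⟩
  change algebraMap _ (FractionRing (B ⧸ P)) (Ideal.Quotient.mk P z) = 0 ↔ _
  rw [map_eq_zero_iff _ (IsFractionRing.injective _ _), Ideal.Quotient.eq_zero_iff_mem]

/-- a geometric singular point -/
theorem exists_point {n d : ℕ} (hd : 1 ≤ d) (G : MvPolynomial (Fin (n + 2)) ℤ)
    (hG : G.IsHomogeneous d) (h : ¬ Smooth (map (Int.castRingHom ℚ) G)) :
    ∃ (Λ : Type) (_ : Field Λ) (_ : CharZero Λ) (x : Fin (n + 2) → Λ) (i : Fin (n + 2)),
      x i ≠ 0 ∧ (∀ j, aeval x (pderiv j G) = 0) ∧ aeval x G = 0 := by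
  classical
  unfold Smooth at h
  push Not at h
  obtain ⟨i, hcon⟩ := h
  set I := Ideal.span (Set.range fun j => pderiv j (map (Int.castRingHom ℚ) G)) with hI
  obtain ⟨P, hIP, hPp, hiP⟩ : ∃ P : Ideal (MvPolynomial (Fin (n + 2)) ℚ), I ≤ P ∧ P.IsPrime ∧
      X i ∉ P := by
    rw [Ideal.radical_eq_sInf, Submodule.mem_sInf] at hcon
    push Not at hcon
    obtain ⟨P, ⟨h1, h2⟩, h3⟩ := hcon
    exact ⟨P, h1, h2, h3⟩
  obtain ⟨Λ, _, ψ, hψ⟩ := exists_fieldhom P hPp
  have hch : CharZero Λ := by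
    have h1 : Function.Injective (ψ.comp (C : ℚ →+* _)) := RingHom.injective _
    exact charZero_of_injective_ringHom h1
  let x : Fin (n + 2) → Λ := fun j => ψ (X j)
  have hx : ∀ H : MvPolynomial (Fin (n + 2)) ℤ, ψ (map (Int.castRingHom ℚ) H) = aeval x H := by
    intro H
    have h1 : ψ.comp (map (Int.castRingHom ℚ)) = (aeval x : _ →ₐ[ℤ] Λ).toRingHom := by
      apply MvPolynomial.ringHom_ext'
      · exact RingHom.ext_int _ _
      · intro j
        change ψ (map (Int.castRingHom ℚ) (X j)) = aeval x (X j)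
        rw [map_X, aeval_X]
    exact congrArg (fun f => f H) h1
  have hpd : ∀ j, aeval x (pderiv j G) = 0 := by
    intro j
    rw [← hx, hψ, ← pderiv_map]
    exact hIP (Ideal.subset_span ⟨j, rfl⟩)
  have hG0 : aeval x G = 0 := by
    have h1 := congrArg (aeval x) hG.sum_X_mul_pderiv
    rw [map_sum, map_nsmul] at h1
    simp only [map_mul, hpd, mul_zero, Finset.sum_const_zero] at h1
    rw [eq_comm, smul_eq_zero] at h1
    rcases h1 with h1 | h1
    · omega
    · exact h1
  exact ⟨Λ, _, hch, x, i, fun h0 => hiP ((hψ _).1 h0), hpd, hG0⟩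

/-- **EK-7** -/
theorem ek7 : S_EK7 := by
  classical
  intro n d hd G hG p hp h
  by_contra hcon
  obtain ⟨Λ, _, _, x, i, hxi, hpd, hG0⟩ := exists_point hd G hG hcon
  obtain ⟨V, hV⟩ := exists_val (Λ := Λ) p hp
  obtain ⟨s, hs⟩ := Finite.exists_max (fun j => V.valuation (x j))
  have hxs : x s ≠ 0 := by
    intro h0
    have h1 := hs i
    simp only [h0, map_zero] at h1
    have h2 : x i = 0 := by
      rw [← V.valuation.zero_iff]
      exact le_antisymm h1 zero_le
    exact hxi h2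
  let t : Fin (n + 2) → Λ := fun j => x j * (x s)⁻¹
  have hts : t s = 1 := mul_inv_cancel₀ hxs
  have htV : ∀ j, t j ∈ V := by
    intro j
    rw [← V.valuation_le_one_iff]
    change V.valuation (x j * (x s)⁻¹) ≤ 1
    rw [map_mul, map_inv₀]
    have h1 : V.valuation (x s) ≠ 0 := (Valuation.ne_zero_iff _).2 hxs
    rw [← div_eq_mul_inv]
    exact (div_le_one₀ (lt_of_le_of_ne zero_le h1.symm)).2 (hs j)
  have haev : ∀ (H : MvPolynomial (Fin (n + 2)) ℤ) (e : ℕ), H.IsHomogeneous e → aeval x H = 0 →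
      aeval (fun j : {j : Fin (n + 2) // j ≠ s} => t j) (deh s H) = 0 := by
    intro H e he h0
    rw [aeval_deh s t hts, aeval_scale x _ e H he, h0, zero_mul]
  let g : MvPolynomial {j : Fin (n + 2) // j ≠ s} ℤ →+* V :=
    eval₂Hom (Int.castRingHom V) (fun j => (⟨t j, htV j⟩ : V))
  have hg : ∀ H, ((g H : V) : Λ) = aeval (fun j : {j : Fin (n + 2) // j ≠ s} => t j) H := by
    intro H
    have h1 : (V.subtype).comp g =
        (aeval (fun j : {j : Fin (n + 2) // j ≠ s} => t j) : _ →ₐ[ℤ] Λ).toRingHom := by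
      apply MvPolynomial.ringHom_ext'
      · exact RingHom.ext_int _ _
      · intro j
        change V.subtype (eval₂Hom (Int.castRingHom V)
          (fun j : {j : Fin (n + 2) // j ≠ s} => (⟨t j, htV j⟩ : V)) (X j)) =
          aeval (fun j : {j : Fin (n + 2) // j ≠ s} => t j) (X j)
        rw [eval₂Hom_X', aeval_X]
        rfl
    exact congrArg (fun f => f H) h1
  have hpm : ((p : ℤ) : V) ∈ IsLocalRing.maximalIdeal V := by
    rw [← ValuationSubring.coe_mem_nonunits_iff]
    have h1 : ((((p : ℤ) : V)) : Λ) = (p : Λ) := by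
      push_cast
      rfl
    rw [h1]
    exact hV
  have hzero : ∀ H, aeval (fun j : {j : Fin (n + 2) // j ≠ s} => t j) H = 0 →
      H ∈ (IsLocalRing.maximalIdeal V).comap g := by
    intro H h0
    rw [Ideal.mem_comap]
    have h1 : g H = 0 := Subtype.ext ((hg H).trans h0)
    rw [h1]
    exact Ideal.zero_mem _
  obtain ⟨j, hj⟩ := h s ((IsLocalRing.maximalIdeal V).comap g) (Ideal.comap_isPrime _ _)
    (by
      intro r
      have hgr : g (C r) = (r : V) := eval₂Hom_C _ _ _
      rw [Ideal.mem_comap, hgr, Ideal.mem_span_singleton]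
      constructor
      · intro h1
        by_contra h2
        have h3 : IsCoprime r (p : ℤ) :=
          ((Nat.prime_iff_prime_int.1 hp).coprime_iff_not_dvd.2 h2).symm
        obtain ⟨a, b, hab⟩ := h3
        have h4 : (1 : V) ∈ IsLocalRing.maximalIdeal V := by
          have h5 : (1 : V) = (a : V) * (r : V) + (b : V) * ((p : ℤ) : V) := by
            rw [← Int.cast_mul, ← Int.cast_mul, ← Int.cast_add, hab, Int.cast_one]
          rw [h5]
          exact Ideal.add_mem _ (Ideal.mul_mem_left _ _ h1) (Ideal.mul_mem_left _ _ hpm)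
        exact (IsLocalRing.maximalIdeal.isMaximal V).ne_top ((Ideal.eq_top_iff_one _).2 h4)
      · rintro ⟨k, rfl⟩
        rw [Int.cast_mul]
        exact Ideal.mul_mem_right _ _ hpm)
    (hzero _ (haev G d hG hG0))
  refine hj (hzero _ ?_)
  rw [pderiv_deh]
  exact haev _ (d - 1) hG.pderiv (hpd _)

end Pool.Agent.Q38.OD
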