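import Pool.Agent.Q40.OD.Stm1

/-! Jobs OD-9 and OD-11 of project OD. -/

set_option autoImplicit false

namespace Pool.Agent.Q38.OD

open Pool.Agent.Q40.OD Pool.Agent.TH214.RM MvPolynomial

/-- **OD-9** -/
theorem od9 : S_OD9 := by
  classical
  intro R K _ _ _ _ _ _ π hπ ι _ _ G d hGd hsm
  have hRK : Function.Injective (algebraMap R K) := IsFractionRing.injective R K
  have hspan : Ideal.span (Set.range fun j => pderiv j (map (algebraMap R K) G)) =
      Ideal.span (map (algebraMap R K) '' (Set.range fun j => pderiv j G)) := by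
    congr 1
    rw [← Set.range_comp]
    congr 1
    funext j
    exact pderiv_map
  have key : ∀ s, ∃ N : ℕ, C π ^ N ∈ Ideal.span (insert (deh s G)
      (Set.range fun a => pderiv a (deh s G))) := by
    intro s
    set J := Ideal.span (insert (deh s G) (Set.range fun a => pderiv a (deh s G))) with hJ
    obtain ⟨k, hk⟩ := hsm s
    rw [hspan] at hk
    obtain ⟨c, hc, y, hy, hyc⟩ := clear_span (R := K) (nonZeroDivisors R) _ _ hk
    have hc0 : c ≠ 0 := nonZeroDivisors.ne_zero hc
    have hyX : y = C c * X s ^ k := by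
      apply map_injective _ hRK
      rw [hyc, map_mul, map_C, map_pow, map_X]
    have h1 : Ideal.span (Set.range fun j => pderiv j G) ≤ J.comap
        ((aeval (Pool.Agent.H918R2.Quad.tau s) :
          MvPolynomial ι R →ₐ[R] MvPolynomial {j : ι // j ≠ s} R) : _ →+* _) := by
      rw [Ideal.span_le]
      rintro _ ⟨j, rfl⟩
      refine all_pderiv_mem G d hGd s J (Ideal.subset_span (Set.mem_insert _ _)) (fun a => ?_) j
      exact Ideal.subset_span (Set.mem_insert_of_mem _ ⟨a, rfl⟩)
    have h2 : (aeval (Pool.Agent.H918R2.Quad.tau s) :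
        MvPolynomial ι R →ₐ[R] MvPolynomial {j : ι // j ≠ s} R) y ∈ J := h1 hy
    have h3 : (Pool.Agent.H918R2.Quad.tau s s : MvPolynomial {i : ι // i ≠ s} R) = 1 := by
      unfold Pool.Agent.H918R2.Quad.tau
      rw [dif_pos rfl]
    rw [hyX, map_mul, map_pow, aeval_X, h3, one_pow, mul_one, aeval_C] at h2
    obtain ⟨n, u, hu⟩ := IsDiscreteValuationRing.eq_unit_mul_pow_irreducible hc0 hπ
    refine ⟨n, ?_⟩
    have h4 : (C π ^ n : MvPolynomial {j : ι // j ≠ s} R) =
        C ((u⁻¹ : Rˣ) : R) * algebraMap R _ c := by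
      rw [hu, MvPolynomial.algebraMap_eq, ← C_mul, ← mul_assoc, Units.inv_mul, one_mul, C_pow]
    rw [h4]
    exact Ideal.mul_mem_left _ _ h2
  choose N hN using key
  refine ⟨∑ s, N s, fun s => ?_⟩
  have h5 : N s ≤ ∑ s, N s := Finset.single_le_sum (fun _ _ => Nat.zero_le _) (Finset.mem_univ s)
  obtain ⟨m, hm⟩ := Nat.exists_eq_add_of_le h5
  rw [hm, pow_add]
  exact Ideal.mul_mem_right _ _ (hN s)

/-- the linear change of coordinates -/
noncomputable def lc {K : Type} [CommRing K] {n : ℕ} (T : Matrix (Fin n) (Fin n) K) :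
    MvPolynomial (Fin n) K →ₐ[K] MvPolynomial (Fin n) K := aeval (fun i => ∑ j, C (T i j) * X j)

theorem lc_X {K : Type} [CommRing K] {n : ℕ} (T : Matrix (Fin n) (Fin n) K) (i : Fin n) :
    lc T (X i) = ∑ j, C (T i j) * X j := aeval_X _ _

theorem pderiv_lc_X {K : Type} [CommRing K] {n : ℕ} (T : Matrix (Fin n) (Fin n) K) (i m : Fin n) :
    pderiv m (lc T (X i)) = C (T i m) := by
  classical
  rw [lc_X, map_sum, Finset.sum_eq_single m]
  · rw [pderiv_C_mul, pderiv_X_self, mul_one]
  · intro j _ hj
    rw [pderiv_C_mul, pderiv_X_of_ne hj, mul_zero]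
  · intro h
    exact absurd (Finset.mem_univ m) h

/-- the chain rule -/
theorem chain {K : Type} [CommRing K] {n : ℕ} (T : Matrix (Fin n) (Fin n) K)
    (G : MvPolynomial (Fin n) K) (m : Fin n) :
    pderiv m (lc T G) = ∑ i, C (T i m) * lc T (pderiv i G) := by
  classical
  induction G using MvPolynomial.induction_on with
  | C a =>
    have h1 : lc T (C a) = C a := (lc T).commutes a
    rw [h1]
    simp
  | add p q hp hq =>
    simp only [map_add, hp, hq, mul_add, Finset.sum_add_distrib]
  | mul_X p i hp =>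
    have h1 : ∀ k, lc T (pderiv k (p * X i)) =
        lc T p * (if i = k then 1 else 0) + lc T (X i) * lc T (pderiv k p) := by
      intro k
      rw [Derivation.leibniz, smul_eq_mul, smul_eq_mul, map_add, map_mul, map_mul]
      congr 2
      by_cases h : i = k
      · subst h
        rw [pderiv_X_self, map_one, if_pos rfl]
      · rw [pderiv_X_of_ne h, map_zero, if_neg h]
    simp only [h1]
    rw [map_mul, Derivation.leibniz, smul_eq_mul, smul_eq_mul, hp, pderiv_lc_X]
    simp only [mul_add, Finset.sum_add_distrib]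
    congr 1
    · rw [Finset.sum_eq_single i]
      · rw [if_pos rfl]
        ring
      · intro j _ hj
        rw [if_neg (Ne.symm hj)]
        ring
      · intro h
        exact absurd (Finset.mem_univ i) h
    · rw [Finset.mul_sum]
      refine Finset.sum_congr rfl fun k _ => ?_
      ring

/-- **OD-11** -/
theorem od11 : S_OD11 := by
  classical
  intro K _ n G hsm l hl T T' hT
  change Smooth (C l * lc T G)
  have hT' : T' * T = 1 := mul_eq_one_comm.1 hT
  set J := Ideal.span (Set.range fun j => pderiv j (C l * lc T G)) with hJ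
  have h0 : ∀ m, pderiv m (lc T G) ∈ J := by
    intro m
    have h1 : pderiv m (lc T G) = C l⁻¹ * pderiv m (C l * lc T G) := by
      rw [pderiv_C_mul, ← mul_assoc, ← C_mul, inv_mul_cancel₀ hl, C_1, one_mul]
    rw [h1]
    exact Ideal.mul_mem_left _ _ (Ideal.subset_span ⟨m, rfl⟩)
  have h1 : ∀ i, lc T (pderiv i G) ∈ J := by
    intro i
    have h2 : lc T (pderiv i G) = ∑ m, C (T' m i) * pderiv m (lc T G) := by
      simp only [chain, Finset.mul_sum]
      rw [Finset.sum_comm]
      have h3 : ∀ k, ∑ m, C (T' m i) * (C (T k m) * lc T (pderiv k G)) =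
          C ((T * T') k i) * lc T (pderiv k G) := by
        intro k
        rw [Matrix.mul_apply, map_sum, Finset.sum_mul]
        refine Finset.sum_congr rfl fun m _ => ?_
        rw [C_mul]
        ring
      simp only [h3]
      rw [hT, Finset.sum_eq_single i]
      · rw [Matrix.one_apply_eq, C_1, one_mul]
      · intro j _ hj
        rw [Matrix.one_apply_ne hj, C_0, zero_mul]
      · intro h
        exact absurd (Finset.mem_univ i) h
    rw [h2]
    exact Ideal.sum_mem _ fun m _ => Ideal.mul_mem_left _ _ (h0 m)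
  have h4 : Ideal.span (Set.range fun j => pderiv j G) ≤ J.comap (lc T : _ →+* _) := by
    rw [Ideal.span_le]
    rintro _ ⟨j, rfl⟩
    exact h1 j
  have h5 : ∀ i, lc T (X i) ∈ J.radical := by
    intro i
    obtain ⟨k, hk⟩ := hsm i
    refine ⟨k, ?_⟩
    rw [← map_pow]
    exact h4 hk
  intro j
  have h6 : (X j : MvPolynomial (Fin n) K) = ∑ i, C (T' j i) * lc T (X i) := by
    simp only [lc_X, Finset.mul_sum]
    rw [Finset.sum_comm]
    have h3 : ∀ k, ∑ m, (C (T' j m) : MvPolynomial (Fin n) K) * (C (T m k) * X k) =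
        C ((T' * T) j k) * X k := by
      intro k
      rw [Matrix.mul_apply, map_sum, Finset.sum_mul]
      refine Finset.sum_congr rfl fun m _ => ?_
      rw [C_mul]
      ring
    simp only [h3]
    rw [hT', Finset.sum_eq_single j]
    · rw [Matrix.one_apply_eq, C_1, one_mul]
    · intro i _ hi
      rw [Matrix.one_apply_ne (Ne.symm hi), C_0, zero_mul]
    · intro h
      exact absurd (Finset.mem_univ j) h
  rw [h6]
  exact Ideal.sum_mem _ fun i _ => Ideal.mul_mem_left _ _ (h5 i)

end Pool.Agent.Q38.OD
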